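import Pool.Agent.Helper79.PN.Lem

set_option autoImplicit false

/-!
MP_7c9036_mp, module DEN: the internal coordinates are dense.
-/

open scoped Classical

namespace Pool.Agent.Helper85.PN

open Pool.Agent.Helper79.PN

lemma den_zeta_eq : zeta = Complex.exp (((2 * Real.pi / 5 : ℝ) : ℂ) * Complex.I) := by
  unfold zeta
  congr 1
  push_cast
  ring

lemma den_norm : ‖zeta‖ = 1 := by
  rw [den_zeta_eq]
  exact Complex.norm_exp_ofReal_mul_I _

lemma den_re : zeta.re = Real.cos (2 * Real.pi / 5) := by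
  rw [den_zeta_eq]
  exact Complex.exp_ofReal_mul_I_re _

lemma den_im : zeta.im = Real.sin (2 * Real.pi / 5) := by
  rw [den_zeta_eq]
  exact Complex.exp_ofReal_mul_I_im _

lemma den_im_pos : 0 < zeta.im := by
  rw [den_im]
  apply Real.sin_pos_of_pos_of_lt_pi
  · positivity
  · linarith [Real.pi_pos]

lemma den_pow : zeta ^ 5 = 1 := by
  unfold zeta
  rw [← Complex.exp_nat_mul]
  rw [Complex.exp_eq_one_iff]
  exact ⟨1, by push_cast; ring⟩

lemma den_re_pos : 0 < zeta.re := by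
  rw [den_re]
  apply Real.cos_pos_of_mem_Ioo
  constructor
  · linarith [Real.pi_pos]
  · linarith [Real.pi_pos]

lemma den_re_lt : zeta.re < 1 / 2 := by
  rw [den_re, ← Real.cos_pi_div_three]
  apply Real.cos_lt_cos_of_nonneg_of_le_pi
  · positivity
  · linarith [Real.pi_pos]
  · linarith [Real.pi_pos]

lemma den_conj : zeta ^ 4 = (starRingEnd ℂ) zeta := by
  have h1 : zeta * (starRingEnd ℂ) zeta = 1 := by
    rw [Complex.mul_conj, Complex.normSq_eq_norm_sq, den_norm]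
    norm_num
  have h0 : zeta ≠ 0 := by
    intro h
    have := den_norm
    rw [h] at this
    simp at this
  have h2 : zeta * zeta ^ 4 = 1 := by
    rw [← pow_succ']
    exact den_pow
  exact mul_left_cancel₀ h0 (h2.trans h1.symm)

lemma den_u : zeta + zeta ^ 4 = ((2 * zeta.re : ℝ) : ℂ) := by
  rw [den_conj, Complex.add_conj]

lemma den_sum (K : Lam) : ∑ k : ZMod 5, (K k : ℂ) * zeta ^ k.val =
    K 0 + K 1 * zeta + K 2 * zeta ^ 2 + K 3 * zeta ^ 3 + K 4 * zeta ^ 4 := by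
  have h := Fin.sum_univ_five (fun k : Fin 5 => ((K k : ℤ) : ℂ) * zeta ^ (ZMod.val (n := 5) k))
  refine h.trans ?_
  have v0 : ZMod.val (n := 5) (0 : Fin 5) = 0 := rfl
  have v1 : ZMod.val (n := 5) (1 : Fin 5) = 1 := rfl
  have v2 : ZMod.val (n := 5) (2 : Fin 5) = 2 := rfl
  have v3 : ZMod.val (n := 5) (3 : Fin 5) = 3 := rfl
  have v4 : ZMod.val (n := 5) (4 : Fin 5) = 4 := rfl
  rw [v0, v1, v2, v3, v4, pow_zero, pow_one, mul_one]
  rfl

lemma den_lvl (K : Lam) : lvl K = K 0 + K 1 + K 2 + K 3 + K 4 := by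
  unfold lvl
  exact Fin.sum_univ_five (fun k : Fin 5 => (K k : ℤ))

/-- `n e_0` -/
def cn (n : ℤ) : Lam := fun k => if k = 0 then n else 0

lemma cn0 (n : ℤ) : cn n 0 = n := if_pos rfl
lemma cn1 (n : ℤ) : cn n 1 = 0 := if_neg (by decide)
lemma cn2 (n : ℤ) : cn n 2 = 0 := if_neg (by decide)
lemma cn3 (n : ℤ) : cn n 3 = 0 := if_neg (by decide)
lemma cn4 (n : ℤ) : cn n 4 = 0 := if_neg (by decide)

/-- `e_0 - e_1` -/
def cd : Lam := fun k => if k = 0 then 1 else if k = 1 then -1 else 0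

lemma cd0 : cd 0 = 1 := rfl
lemma cd1 : cd 1 = -1 := rfl
lemma cd2 : cd 2 = 0 := rfl
lemma cd3 : cd 3 = 0 := rfl
lemma cd4 : cd 4 = 0 := rfl

/-- the possible differences of internal coordinates on one level -/
def DD : Set ℂ := {z | ∃ K : Lam, lvl K = 0 ∧
  K 0 + K 1 * zeta + K 2 * zeta ^ 2 + K 3 * zeta ^ 3 + K 4 * zeta ^ 4 = z}

lemma den_add {z w : ℂ} (hz : z ∈ DD) (hw : w ∈ DD) : z + w ∈ DD := by
  obtain ⟨K, hK, rfl⟩ := hz
  obtain ⟨L, hL, rfl⟩ := hw
  refine ⟨K + L, ?_, ?_⟩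
  · rw [den_lvl] at hK hL ⊢
    simp only [Pi.add_apply]
    omega
  · simp only [Pi.add_apply]
    push_cast
    ring

lemma den_int {z : ℂ} (hz : z ∈ DD) (n : ℤ) : (n : ℂ) * z ∈ DD := by
  obtain ⟨K, hK, rfl⟩ := hz
  refine ⟨fun k => n * K k, ?_, ?_⟩
  · rw [den_lvl] at hK ⊢
    have : n * K 0 + n * K 1 + n * K 2 + n * K 3 + n * K 4 =
      n * (K 0 + K 1 + K 2 + K 3 + K 4) := by ring
    rw [this, hK, mul_zero]
  · push_cast
    ring

/-- rotated lattice point -/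
def rot (K : Lam) : Lam := fun k => K (k - 1)

lemma den_zeta {z : ℂ} (hz : z ∈ DD) : zeta * z ∈ DD := by
  obtain ⟨K, hK, rfl⟩ := hz
  have r0 : rot K 0 = K 4 := rfl
  have r1 : rot K 1 = K 0 := rfl
  have r2 : rot K 2 = K 1 := rfl
  have r3 : rot K 3 = K 2 := rfl
  have r4 : rot K 4 = K 3 := rfl
  refine ⟨rot K, ?_, ?_⟩
  · rw [den_lvl] at hK ⊢
    rw [r0, r1, r2, r3, r4]
    omega
  · rw [r0, r1, r2, r3, r4]
    have h5 := den_pow
    linear_combination (-(K 4 : ℂ)) * h5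

lemma den_mulu {z : ℂ} (hz : z ∈ DD) : ((2 * zeta.re : ℝ) : ℂ) * z ∈ DD := by
  rw [← den_u, add_mul]
  apply den_add (den_zeta hz)
  have h := den_zeta (den_zeta (den_zeta (den_zeta hz)))
  have e : zeta ^ 4 * z = zeta * (zeta * (zeta * (zeta * z))) := by ring
  rw [e]
  exact h

lemma den_powu (m : ℕ) : ((2 * zeta.re : ℝ) : ℂ) ^ m * (1 - zeta) ∈ DD := by
  induction m with
  | zero =>
    refine ⟨cd, ?_, ?_⟩
    · rw [den_lvl]
      rfl
    · rw [cd0, cd1, cd2, cd3, cd4]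
      push_cast
      ring
  | succ m ih =>
    have h := den_mulu ih
    have e : ((2 * zeta.re : ℝ) : ℂ) ^ (m + 1) * (1 - zeta) =
      ((2 * zeta.re : ℝ) : ℂ) * (((2 * zeta.re : ℝ) : ℂ) ^ m * (1 - zeta)) := by ring
    rw [e]
    exact h

theorem st_DEN : ST_DEN := by
  intro θ y n ε hε
  have him := den_im_pos
  have hre := den_re_pos
  have hre2 := den_re_lt
  set u : ℝ := 2 * zeta.re with hu
  have hu0 : 0 < u := by linarith
  have hu1 : u < 1 := by linarith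
  obtain ⟨m, hm⟩ := exists_pow_lt_of_lt_one (show 0 < ε / 4 by linarith) hu1
  have hz1 : (1 : ℂ) - zeta ≠ 0 := by
    intro h
    have h1 : ((1 : ℂ) - zeta).im = 0 := by rw [h]; simp
    simp at h1
    linarith
  have hum : (u : ℂ) ^ m ≠ 0 := pow_ne_zero _ (by exact_mod_cast hu0.ne')
  set w : ℂ := y - θ - n with hw
  set c : ℂ := w / ((u : ℂ) ^ m * (1 - zeta)) with hc
  set β : ℝ := c.im / zeta.im with hβ
  set α : ℝ := c.re - β * zeta.re with hα
  have hcαβ : c = (α : ℂ) + (β : ℂ) * zeta := by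
    apply Complex.ext
    · simp [hα]
    · simp [hβ]
      field_simp
  have hwc : w = ((α : ℂ) + (β : ℂ) * zeta) * ((u : ℂ) ^ m * (1 - zeta)) := by
    rw [← hcαβ, hc, div_mul_cancel₀ _ (mul_ne_zero hum hz1)]
  have hd : ((⌊α⌋ : ℤ) : ℂ) * ((u : ℂ) ^ m * (1 - zeta)) +
      ((⌊β⌋ : ℤ) : ℂ) * (zeta * ((u : ℂ) ^ m * (1 - zeta))) ∈ DD :=
    den_add (den_int (den_powu m) _) (den_int (den_zeta (den_powu m)) _)
  obtain ⟨K, hK, hKd⟩ := hd
  refine ⟨K + cn n, ?_, ?_⟩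
  · rw [den_lvl] at hK ⊢
    simp only [Pi.add_apply]
    rw [cn0, cn1, cn2, cn3, cn4]
    omega
  · have e1 : yy θ (K + cn n) - y =
        -((((α - ⌊α⌋ : ℝ) : ℂ) + ((β - ⌊β⌋ : ℝ) : ℂ) * zeta) * ((u : ℂ) ^ m * (1 - zeta))) := by
      unfold yy
      rw [den_sum]
      simp only [Pi.add_apply]
      rw [cn0, cn1, cn2, cn3, cn4]
      push_cast
      have hwc' : y = θ + n + ((α : ℂ) + (β : ℂ) * zeta) * ((u : ℂ) ^ m * (1 - zeta)) := by
        rw [← hwc, hw]
        ring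
      rw [hwc']
      linear_combination hKd
    rw [e1, norm_neg, norm_mul, norm_mul, norm_pow]
    have n1 : ‖((α - ⌊α⌋ : ℝ) : ℂ) + ((β - ⌊β⌋ : ℝ) : ℂ) * zeta‖ ≤ 2 := by
      refine (norm_add_le _ _).trans ?_
      rw [norm_mul, den_norm, mul_one, Complex.norm_real, Complex.norm_real, Real.norm_eq_abs,
        Real.norm_eq_abs]
      have a1 : |α - ⌊α⌋| ≤ 1 := by
        rw [abs_of_nonneg (by linarith [Int.floor_le α])]
        linarith [Int.lt_floor_add_one α]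
      have a2 : |β - ⌊β⌋| ≤ 1 := by
        rw [abs_of_nonneg (by linarith [Int.floor_le β])]
        linarith [Int.lt_floor_add_one β]
      linarith
    have n2 : ‖(1 : ℂ) - zeta‖ ≤ 2 := by
      refine (norm_sub_le _ _).trans ?_
      rw [den_norm, norm_one]
      norm_num
    have n3 : ‖(u : ℂ)‖ = u := by
      rw [Complex.norm_real, Real.norm_eq_abs, abs_of_pos hu0]
    rw [n3]
    have n4 : 0 < u ^ m := pow_pos hu0 m
    calc ‖((α - ⌊α⌋ : ℝ) : ℂ) + ((β - ⌊β⌋ : ℝ) : ℂ) * zeta‖ * (u ^ m * ‖(1 : ℂ) - zeta‖)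
        ≤ 2 * (u ^ m * 2) := by
          apply mul_le_mul n1 _ (by positivity) (by norm_num)
          exact mul_le_mul_of_nonneg_left n2 n4.le
      _ = 4 * u ^ m := by ring
      _ < ε := by linarith

end Pool.Agent.Helper85.PN
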